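import Pool.Agent.Helper98.GX.St4
import Pool.Agent.Helper53.CX.M_Comb

/-!
# Project GX, module CMB: a graded common basis of the tight subspaces
-/

set_option autoImplicit false

open scoped BigOperators

namespace Pool.Agent.Helper38.GX

open Pool.Agent.Helper98.GX
open Pool.Agent.Helper53.CX (DivVal LinSys IsNefCartier)

private theorem mem_Blk {N r : ℕ} {bl : Fin N → Fin r} {k : Fin r} {x : Fin N → ℂ} :
    x ∈ Blk bl k ↔ ∀ a, bl a ≠ k → x a = 0 := Iff.rfl

private theorem finrank_Blk {N r : ℕ} (bl : Fin N → Fin r) (k : Fin r) :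
    Module.finrank ℂ (Blk bl k) = (Finset.univ.filter fun a => bl a = k).card := by
  classical
  let f : (Blk bl k) →ₗ[ℂ] ({a // bl a = k} → ℂ) :=
    { toFun := fun x a => x.1 a.1
      map_add' := fun _ _ => rfl
      map_smul' := fun _ _ => rfl }
  have hf : Function.Bijective f := by
    constructor
    · intro x y h
      apply Subtype.ext
      ext a
      by_cases ha : bl a = k
      · exact congrFun h ⟨a, ha⟩
      · rw [x.2 a ha, y.2 a ha]
    · intro y
      refine ⟨⟨fun a => if h : bl a = k then y ⟨a, h⟩ else 0, ?_⟩, ?_⟩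
      · intro a ha
        exact dif_neg ha
      · ext a
        exact dif_pos a.2
  have e := LinearEquiv.ofBijective f hf
  rw [e.finrank_eq, Module.finrank_fintype_fun_eq_card, Fintype.card_subtype]

private theorem Blk_disj {N r : ℕ} {bl : Fin N → Fin r} {k l : Fin r} (h : k ≠ l) {x : Fin N → ℂ}
    (hk : x ∈ Blk bl k) (hl : x ∈ Blk bl l) : x = 0 := by
  ext a
  by_cases ha : bl a = k
  · exact hl a (by rw [ha]; exact h)
  · exact hk a ha

private theorem tight_Blk {N r : ℕ} {bl : Fin N → Fin r} (Φ : Fam bl) (k : Fin r) :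
    Φ.w (Blk bl k) = (Module.finrank ℂ (Blk bl k) : ℝ) := by
  classical
  rw [finrank_Blk, ← Φ.sum k]
  unfold Fam.w
  refine Finset.sum_congr rfl (fun i _ => ?_)
  have h : Φ.W i ≤ Blk bl k ↔ Φ.bI i = k := by
    constructor
    · intro hle
      by_contra hne
      apply Φ.ne i
      rw [Submodule.eq_bot_iff]
      intro x hx
      exact Blk_disj hne (Φ.le i hx) (hle hx)
    · intro h
      rw [← h]
      exact Φ.le i
  by_cases hk : Φ.bI i = k
  · rw [if_pos (h.2 hk), if_pos hk]
  · rw [if_neg (fun hh => hk (h.1 hh)), if_neg hk]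

private theorem sum_c {N r : ℕ} {bl : Fin N → Fin r} (Φ : Fam bl) : ∑ i, Φ.c i = (N : ℝ) := by
  classical
  have h1 : ∑ k, ∑ i, (if Φ.bI i = k then Φ.c i else 0) = ∑ i, Φ.c i := by
    rw [Finset.sum_comm]
    refine Finset.sum_congr rfl (fun i _ => ?_)
    rw [Finset.sum_ite_eq]
    simp
  have h2 : ∑ k, (((Finset.univ.filter fun a => bl a = k).card : ℕ) : ℝ) = (N : ℝ) := by
    rw [← Nat.cast_sum]
    congr 1
    rw [← Finset.card_eq_sum_card_fiberwise (fun a _ => Finset.mem_coe.2 (Finset.mem_univ (bl a)))]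
    simp
  rw [← h1, ← h2]
  exact Finset.sum_congr rfl (fun k _ => Φ.sum k)

private theorem finrank_rows {N : ℕ} {T : Matrix (Fin N) (Fin N) ℂ} (hT : LinearIndependent ℂ T)
    (J : Finset (Fin N)) :
    Module.finrank ℂ (Submodule.span ℂ (T '' (J : Set (Fin N)))) = J.card := by
  classical
  have h1 : LinearIndependent ℂ (fun j : J => T j) := hT.comp _ Subtype.val_injective
  have h2 := finrank_span_eq_card h1
  rw [Fintype.card_coe] at h2
  rw [← h2, Set.image_eq_range]
  rfl

theorem hCMB : StCMB := by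
  classical
  intro N r bl Φ hΦ
  rcases N with _ | m
  · refine ⟨1, by simp, fun a => a.elim0, ?_⟩
    intro U _
    refine ⟨∅, ?_⟩
    have : Subsingleton (Submodule ℂ (Fin 0 → ℂ)) := inferInstance
    exact Subsingleton.elim _ _
  · obtain ⟨T0, hdet, hT0⟩ := Pool.Agent.Helper53.CX.hComb m Φ.I Φ.W Φ.c Φ.pos Φ.ne
      (by rw [sum_c Φ]; push_cast; ring) hΦ
    have hli : LinearIndependent ℂ T0 := by
      have := Matrix.linearIndependent_rows_iff_isUnit.2
        ((Matrix.isUnit_iff_isUnit_det T0).2 hdet)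
      exact this
    have hJ : ∀ k, ∃ J : Finset (Fin (m + 1)),
        Blk bl k = Submodule.span ℂ (T0 '' (J : Set (Fin (m + 1)))) := by
      intro k
      exact hT0 (Blk bl k) (tight_Blk Φ k)
    choose J hJ using hJ
    have hcard : ∀ k, (J k).card = (Finset.univ.filter fun a => bl a = k).card := by
      intro k
      rw [← finrank_Blk, hJ k, finrank_rows hli]
    have hmem : ∀ k, ∀ j ∈ J k, T0 j ∈ Blk bl k := by
      intro k j hj
      rw [hJ k]
      exact Submodule.subset_span ⟨j, hj, rfl⟩
    have hdisj : ∀ k l, k ≠ l → Disjoint (J k) (J l) := by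
      intro k l hkl
      rw [Finset.disjoint_left]
      intro j hjk hjl
      exact hli.ne_zero j (Blk_disj hkl (hmem k j hjk) (hmem l j hjl))
    have huniv : Finset.univ.biUnion J = (Finset.univ : Finset (Fin (m + 1))) := by
      apply Finset.eq_univ_of_card
      rw [Finset.card_biUnion (fun k _ l _ hkl => hdisj k l hkl)]
      rw [Finset.sum_congr rfl (fun k _ => hcard k),
        ← Finset.card_eq_sum_card_fiberwise
          (fun a _ => Finset.mem_coe.2 (Finset.mem_univ (bl a)))]
      simp
    have hex : ∀ j, ∃ k, j ∈ J k := by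
      intro j
      have h1 : j ∈ Finset.univ.biUnion J := by
        rw [huniv]
        exact Finset.mem_univ j
      obtain ⟨k, _, hk⟩ := Finset.mem_biUnion.1 h1
      exact ⟨k, hk⟩
    choose κ hκ using hex
    have hiff : ∀ j k, κ j = k ↔ j ∈ J k := by
      intro j k
      constructor
      · intro h
        rw [← h]
        exact hκ j
      · intro h
        by_contra hne
        exact Finset.disjoint_left.1 (hdisj _ _ hne) (hκ j) h
    have hce : ∀ k, Fintype.card {a // bl a = k} = Fintype.card {j // κ j = k} := by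
      intro k
      rw [Fintype.card_subtype, Fintype.card_subtype, ← hcard k]
      congr 1
      ext j
      rw [Finset.mem_filter]
      simp [hiff j k]
    let π : Fin (m + 1) ≃ Fin (m + 1) :=
      Equiv.ofFiberEquiv (fun k => Fintype.equivOfCardEq (hce k))
    have hπ : ∀ a, κ (π a) = bl a := fun a => Equiv.ofFiberEquiv_map _ a
    refine ⟨Matrix.of fun a => T0 (π a), ?_, ?_, ?_⟩
    · rw [← Matrix.isUnit_iff_isUnit_det, ← Matrix.linearIndependent_rows_iff_isUnit]
      exact hli.comp π π.injective
    · intro a b hab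
      by_contra hne
      apply hab
      have h1 : T0 (π a) ∈ Blk bl (bl a) := hmem (bl a) (π a) ((hiff _ _).1 (hπ a))
      exact h1 b hne
    · intro U hU
      obtain ⟨K, hK⟩ := hT0 U hU
      refine ⟨K.map π.symm.toEmbedding, ?_⟩
      rw [hK]
      show Submodule.span ℂ (T0 '' (K : Set (Fin (m + 1)))) = _
      congr 1
      ext x
      simp only [Set.mem_image, Finset.mem_coe, Finset.mem_map, Equiv.coe_toEmbedding]
      constructor
      · rintro ⟨j, hj, rfl⟩
        refine ⟨π.symm j, ⟨j, hj, rfl⟩, ?_⟩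
        show T0 (π (π.symm j)) = T0 j
        rw [π.apply_symm_apply]
      · rintro ⟨a, ⟨j, hj, rfl⟩, rfl⟩
        refine ⟨j, hj, ?_⟩
        show T0 j = T0 (π (π.symm j))
        rw [π.apply_symm_apply]

end Pool.Agent.Helper38.GX
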