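import Pool.Agent.Helper98.GX.St

/-!
# Project GX, module FIN: the theorem, from the modules RNK and SUM
-/

set_option autoImplicit false

open scoped BigOperators

namespace Pool.Agent.Helper38.GX

open Pool.Agent.Helper98.GX
open Pool.Agent.Helper53.CX (DivVal LinSys IsNefCartier)

theorem hFIN (hRNK : StRNK) (hSUM : StSUM) : StFIN := by
  classical
  intro K _ _ n L V0 V E ι _ p hp hV0 C hC ρ0 ρ h0 h1
  obtain ⟨⟨F, hF, hF0, hFs⟩, -⟩ := hSUM K n L V0 E ι V.primes p hp hV0
  set T := C.filter (fun v => ¬ v ∈ V0.primes) with hT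
  set Q := F.filter (fun v => ¬ v ∈ V.primes) with hQ
  have hr : T.card + ρ0 ≤ ρ + Q.card := by
    refine hRNK K V0 V T Q ρ0 ρ ?_ ?_ h0 h1
    · intro t ht
      rw [hT, Finset.mem_filter] at ht
      exact ⟨hC ht.1, ht.2⟩
    · intro q hq hqV
      rw [hQ, Finset.mem_filter]
      refine ⟨?_, hqV⟩
      by_contra hqF
      have e0 := hF0 q hq hqF
      rcases hV0 q hq with h | h
      · exact hqV h
      · rw [h] at e0
        exact one_ne_zero e0
  have e1 : ∑ v ∈ C, p.B L v =
      ∑ v ∈ C.filter (fun v => v ∈ V0.primes), p.B L v + ∑ v ∈ T, p.B L v := by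
    rw [hT]
    exact (Finset.sum_filter_add_sum_filter_not C _ _).symm
  have e2 : ∑ v ∈ T, p.B L v ≤ (T.card : ℝ) := by
    calc ∑ v ∈ T, p.B L v ≤ ∑ v ∈ T, (1 : ℝ) := Finset.sum_le_sum (fun v _ => hp.glc v)
      _ = (T.card : ℝ) := by simp
  have e3 : ∑ v ∈ C.filter (fun v => v ∈ V0.primes), p.B L v ≤
      ∑ v ∈ F.filter (fun v => v ∈ V.primes), p.B L v := by
    have h : ∑ v ∈ (C.filter (fun v => v ∈ V0.primes)).filter (fun v => v ∈ F), p.B L v =
        ∑ v ∈ C.filter (fun v => v ∈ V0.primes), p.B L v := by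
      apply Finset.sum_filter_of_ne
      intro v hv hne
      by_contra hvF
      exact hne (hF0 v (Finset.mem_filter.1 hv).2 hvF)
    rw [← h]
    apply Finset.sum_le_sum_of_subset_of_nonneg
    · intro v hv
      rw [Finset.mem_filter, Finset.mem_filter] at hv
      exact Finset.mem_filter.2 ⟨hv.2, hC hv.1.1⟩
    · intro v hv _
      exact hp.effective v (Finset.mem_filter.1 hv).2
  have e4 : ∑ v ∈ F, p.B L v =
      ∑ v ∈ F.filter (fun v => v ∈ V.primes), p.B L v + ∑ v ∈ Q, p.B L v := by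
    rw [hQ]
    exact (Finset.sum_filter_add_sum_filter_not F _ _).symm
  have e5 : ∑ v ∈ Q, p.B L v = (Q.card : ℝ) := by
    calc ∑ v ∈ Q, p.B L v = ∑ v ∈ Q, (1 : ℝ) := by
          refine Finset.sum_congr rfl (fun v hv => ?_)
          rw [hQ, Finset.mem_filter] at hv
          rcases hV0 v (hF hv.1) with h | h
          · exact absurd h hv.2
          · exact h
      _ = (Q.card : ℝ) := by simp
  have hr' : (T.card : ℝ) + (ρ0 : ℝ) ≤ (ρ : ℝ) + (Q.card : ℝ) := by exact_mod_cast hr
  linarith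

end Pool.Agent.Helper38.GX
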